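import Pool.Agent.V1153.UR.Eqv

/-!
# The three notions of hyperbolicity, restricted to curves of bounded complexity, are equivalent

Let `X` be the complement of the hypersurface `Q = 0` in the closed subset of projective space given
by a set `E` of forms over the complex numbers; all degrees are at most `D`. All projective and all
affine varieties are of this form. The following properties are equivalent.

(a) `NoGm`: all maps from the punctured line to `X` are constant.

(b) All entire curves in `X` of finite complexity are constant: these are the curves whose
homogeneous coordinates, and the inverse of the value of `Q` at them, in some open set and up to a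
common factor, are polynomials in `z`, `1 / q(z)` and the entries of the solutions `y_1, ..., y_s` of
iterated systems of linear differential equations, the coefficients of the system for `y_l` being
such polynomials in `z`, `1 / q(z)` and the entries of `y_1, ..., y_{l-1}`.

(c) All entire curves in `X` whose homogeneous coordinates satisfy linear differential equations with
polynomial coefficients are constant.

(d) All holomorphic maps from the spaces `ℂ^m` to `X` with homogeneous coordinates which are sums of
products of polynomials and exponentials of arbitrary entire functions are constant.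

(e) `NoRuledSub`: no integral closed subvariety of `X` is covered by curves of the punctured line.

(f) `PtdFinite`: for every point `x` there are only finitely many nonconstant maps from the punctured
line to `X` which send `1` to `x`.

(g) All families of points of `X` given by iterated recurrences of type `(s, r, e)` have at most
`B(s, r, e)` different points, where `B(s, r, e)` depends only on the type, on `D` and on the dimension
of the projective space.

The first condition of the conjecture (`X` is Brody hyperbolic) implies (b), (c) and (d), the second
one (every subvariety is of log general type) implies (e), and the third one (finiteness of pointed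
maps from curves) contains (f), for the punctured line. So the three conditions of the conjecture,
restricted to these curves, are equivalent, and they are implied by each of the original conditions.
-/

set_option autoImplicit false

namespace Pool.Agent.Results.MP_dc0411_ag.RestrictedNotions

open MvPolynomial Pool.Agent.V1153.UG Pool.Agent.V1153.XS Pool.Agent.V1153.UR Pool.Agent.V1153.IT

/-- For all `n` and `D` there is a function `B` such that for all sets `E` of forms of degree at most
`D` in `n + 1` variables over `ℂ` and all forms `Q` of degree `q ≤ D`, for the complement `X` of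
`Q = 0` in the projective variety with the equations `E`, the following are equivalent: there are no
nonconstant maps from the punctured line to `X`; there are no nonconstant entire curves in `X` of
complexity `(s, r, e, d)`, for all `s, r, e, d`; there are no nonconstant entire curves in `X` with
homogeneous coordinates satisfying linear differential equations; all holomorphic maps from the spaces
`ℂ^m` to `X` given by sums of products of polynomials and exponentials of entire functions are
constant; no integral closed subvariety of `X` is covered by curves of the punctured line; the pointed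
maps from the punctured line to `X` are finite in number; all families of points of `X` given by
iterated recurrences of type `(s, r, e)` have at most `B s r e` different points. These properties
hold if there are no nonconstant entire curves in `X`, and they hold if all integral closed
subvarieties of `X` with more than one point are of log general type. -/
theorem result (n D : ℕ) : ∃ B : ℕ → ℕ → ℕ → ℕ, ∀ (E : Set (MvPolynomial (Fin (n + 1)) ℂ))
    (Q : MvPolynomial (Fin (n + 1)) ℂ) (q : ℕ), (∀ F ∈ E, ∃ a ≤ D, F.IsHomogeneous a) →
    q ≤ D → Q.IsHomogeneous q →
      List.TFAE [NoGm E Q,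
        ∀ s r e d f, Curve (Ideal.span E) Q f → ¬ Bdd Set.univ Q s r e d f,
        ∀ r d f, Curve (Ideal.span E) Q f → ¬ ∀ j, DFin r d fun z => f z j,
        ∀ m r e f, ¬ ExpMap m r e (Ideal.span E) Q f,
        NoRuledSub E Q, PtdFinite E Q,
        ∀ (s r e : ℕ) (H : Type) [Group H] (x : H → Fin (n + 1) → ℂ),
          (∀ h, ∀ F ∈ E, eval (x h) F = 0) → IterOff s r e Q x →
            {p : Projectivization ℂ (Fin (n + 1) → ℂ) | ∃ (h : H) (h0 : x h ≠ 0),
              p = Projectivization.mk ℂ (x h) h0}.encard ≤ (B s r e : ℕ∞)] ∧
      ((∀ f, ¬ Curve (Ideal.span E) Q f) → NoGm E Q) ∧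
      (AllLogGeneral (Ideal.span E) Q q → NoGm E Q) := by
  choose B hB using fun s r e => arith_family n D s r e
  refine ⟨B, fun E Q q hE hq hQ => ?_⟩
  have hom : ∀ F ∈ E, ∃ a, F.IsHomogeneous a := fun F hF => by
    obtain ⟨a, -, ha⟩ := hE F hF
    exact ⟨a, ha⟩
  have hDeg : DegLe D E Q := ⟨hE, ⟨q, hq, hQ⟩⟩
  have hmem : ∀ {v : Fin (n + 1) → ℂ}, (∀ F ∈ E, eval v F = 0) → ∀ F ∈ Ideal.span E,
      eval v F = 0 := by
    intro v hv F hF
    have h6 : Ideal.span E ≤ RingHom.ker (eval v) := by
      rw [Ideal.span_le]
      exact hv
    exact h6 hF
  -- curves of the punctured line give entire curves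
  have hprim : ∀ N P, GmBdd (Ideal.span E) Q N P → ∃ P' : Fin (n + 1) → Polynomial ℂ,
      Prim (Ideal.span E) Q P' ∧ Curve (Ideal.span E) Q fun z j => (P' j).eval (Complex.exp z) := by
    intro N P hP
    obtain ⟨g, P', hg, hPP, hpr⟩ := hP.prim hQ
    refine ⟨P', hpr, fun j => (P' j).differentiable.comp Complex.differentiable_exp,
      fun z h0 => ?_, fun z F hF hFh => hpr.mem _ F hF hFh,
      fun z => hpr.off _ (Complex.exp_ne_zero z), ?_⟩
    · obtain ⟨j, hj⟩ := hpr.ne (Complex.exp z)
      exact hj (congrFun h0 j)
    · obtain ⟨s, t, j, k, hs, ht, hst⟩ := hpr.nc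
      refine ⟨Complex.log s, Complex.log t, j, k, ?_⟩
      simp only [Complex.exp_log ht, Complex.exp_log hs]
      exact hst
  refine ⟨?_, fun h N P hP => ?_, fun h N P hP => no_gm_of_all hom hQ h N P hP⟩
  · tfae_have 1 → 2 := by
      intro h s r e d f hf hb
      obtain ⟨N, hN⟩ := fam_none n D s r e d
      exact (hN E Q hDeg (h N)).1 f hf hb
    tfae_have 2 → 3 := by
      intro h r d f hf hd
      exact h _ _ _ _ f hf (DFin.bddQ hf.diff hf.off hd)
    tfae_have 3 → 1 := by
      intro h N P hP
      obtain ⟨P', hpr, hc⟩ := hprim N P hP
      set M := Finset.univ.sup fun j => (P' j).natDegree with hM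
      exact h (M + 1) 0 _ hc fun j => dfin_exp (P' j)
        (Finset.le_sup (f := fun j => (P' j).natDegree) (Finset.mem_univ j))
    tfae_have 1 → 4 := by
      intro h m r e f hf
      obtain ⟨N, hN⟩ := exp_point (Ideal.span E) hQ r e
      obtain ⟨x, hx⟩ : ∃ x, f x ≠ 0 := by
        by_contra h0
        push Not at h0
        obtain ⟨z', w, j, l, hne⟩ := hf.nc
        apply hne
        rw [h0 z', h0 w]
        rfl
      obtain ⟨P, hP, -⟩ := hN m f hf x hx
      exact h N P hP
    tfae_have 4 → 1 := by
      intro h N P hP
      obtain ⟨P', hpr, hc⟩ := hprim N P hP
      set M := Finset.univ.sup fun j => (P' j).natDegree with hM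
      refine h 1 (M + 1) 0 (fun z j => (P' j).eval (Complex.exp (z 0))) ⟨fun j => ?_,
        fun z => hpr.mem _, fun z => hpr.off _ (Complex.exp_ne_zero _), ?_⟩
      · refine ⟨fun i => C ((P' j).coeff i), fun i z => (i : ℕ) * z 0, fun i => ⟨by
          rw [totalDegree_C], (differentiable_apply 0).const_mul _⟩, fun z => ?_⟩
        have hdeg : (P' j).natDegree < M + 1 := Nat.lt_succ_of_le
          (Finset.le_sup (f := fun j => (P' j).natDegree) (Finset.mem_univ j))
        change (P' j).eval (Complex.exp (z 0)) = _
        rw [Polynomial.eval_eq_sum_range' hdeg,
          ← Fin.sum_univ_eq_sum_range (fun i => (P' j).coeff i * Complex.exp (z 0) ^ i)]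
        refine Finset.sum_congr rfl fun i _ => ?_
        rw [eval_C, ← Complex.exp_nat_mul]
      · obtain ⟨s, t, j, l, hs, ht, hst⟩ := hpr.nc
        refine ⟨fun _ => Complex.log s, fun _ => Complex.log t, j, l, ?_⟩
        simp only [Complex.exp_log ht, Complex.exp_log hs]
        exact hst
    tfae_have 1 ↔ 5 := noRuledSub_iff hom hQ
    tfae_have 1 → 6 := fun h x _ => ⟨∅, fun P hP => absurd hP (Finset.notMem_empty _),
      fun N P hP => absurd hP (h N P)⟩
    tfae_have 6 → 1 := noGm_of_ptdFinite hQ
    tfae_have 1 → 7 := by
      intro h s r e H _ x hx hit
      refine (Set.encard_le_encard ?_).trans (hB s r e ℂ (RingHom.id ℂ) E Q 1 hE ⟨q, hq, hQ⟩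
        ⟨0, Nat.zero_le _, isHomogeneous_one _ _⟩ (fun P hP => absurd ?_ (h (B s r e) P)) H x hx
        hit)
      · rintro p ⟨h, h0, hp⟩
        refine ⟨h, h0, ?_, hp⟩
        rw [map_one]
        exact one_ne_zero
      · have h0 : (fun F : MvPolynomial (Fin (n + 1)) ℂ => map (RingHom.id ℂ) F) = id := by
          funext F
          exact map_id F
        have h1 : map (RingHom.id ℂ) '' E = E := by
          change (fun F : MvPolynomial (Fin (n + 1)) ℂ => map (RingHom.id ℂ) F) '' E = E
          rw [h0]
          exact Set.image_id E
        rw [h1, map_id] at hP
        exact hP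
    tfae_have 7 → 1 := by
      intro h N P hP
      obtain ⟨P', hpr, -⟩ := hprim N P hP
      obtain ⟨g, P'', hg, hPP, hpr2⟩ := hP.prim hQ
      have hP2 : GmBdd (Ideal.span E) Q N P'' :=
        Pool.Agent.V1153.OD.prim_bdd hQ hP hg hPP hpr2
      have h1 := curve_infinite (G := 1) hP2 (t := 1) (by rw [map_one]; exact one_ne_zero)
      have h2 := Set.finite_of_encard_le_coe (h 1 1 (q * N + N) _
        (fun (h : Multiplicative ℤ) j => (P'' j).eval (tw h)) (fun h F hF => by
          obtain ⟨a, ha⟩ := hom F hF
          exact hpr2.mem _ F (Ideal.subset_span hF) ⟨a, ha⟩) (iter_curve le_rfl hQ hP2))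
      refine h1 (h2.subset ?_)
      rintro p ⟨h, h0, -, hp⟩
      exact ⟨h, h0, hp⟩
    tfae_finish
  · obtain ⟨P', -, hc⟩ := hprim N P hP
    exact h _ hc

end Pool.Agent.Results.MP_dc0411_ag.RestrictedNotions
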