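import Mathlib
import Pool.Agent.V11197.SM.Cl
import Pool.Agent.V1153.UR.Eqv

/-!
MP_dc0411_ag, Q1: points and maps that are combinations of given ones with multipliers of small
height, for arbitrary affine varieties.

Let `X` be a closed subset of affine `n`-space over the complex numbers, given by polynomials of
degree at most `d`. The following properties are equivalent.

(a) All maps from the punctured line to `X` are constant.

(b) For every `r`, ALL fields `L ⊇ ℂ` (for instance the function field of a curve `C`; then points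
over `L` are rational maps from `C`) and ALL vectors `v_1, …, v_r` over `L`, at most `B(d, r)` points
of `X(L)` have the form `x = t_1 v_1 + … + t_r v_r` with algebraic numbers `t_j` of ARBITRARY degree
and `h(1 : t_1 : … : t_r) < eps(d, r)`. Here `B(d, r)` and `eps(d, r) > 0` are explicit and
independent of `X`, of `n` and of the number of equations, of the coefficients, of `L` and of the
`v_j`.

(c) For all integers `e_1, …, e_r` and all vectors `V_1, …, V_r` over `ℂ` only finitely many points
`ζ ^ e_1 V_1 + … + ζ ^ e_r V_r`, `ζ` a root of unity, are on `X`.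

They hold if `X` is Brody hyperbolic (condition 1 of the problem), if all integral subvarieties of `X`
with more than one point are of log general type (condition 2), and if the maps from the punctured
line to `X` which send `1` to a given point are finite in number (a case of condition 3).
-/

set_option autoImplicit false

namespace Pool.Agent.Results.MP_dc0411_ag.SmallMultiplierPoints

open MvPolynomial Pool.Agent.V1153.UG Pool.Agent.V1153.UR Pool.Agent.V11197.SM
open Pool.Agent.Helper259.AbsHt Pool.Agent.Y215.SP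
open Pool.Agent.Y215.AF (homC cur_homC_zero)
open Pool.Agent.H533R3.SL (cur)
open Pool.Agent.W235.RM (hmg hmg_homog hmg_eval)

/-- the bound for the heights of the multipliers -/
noncomputable def eps (d r : ℕ) : ℝ := epsn ((d + 1) ^ (r + 1)) / d

/-- the bound for the number of points -/
noncomputable def B (d r : ℕ) : ℕ := 2 ^ r * M0 ((d + 1) ^ (r + 1)) d (r + 1)

theorem eps_pos (d r : ℕ) (hd : 1 ≤ d) : 0 < eps d r :=
  div_pos (epsn_pos _ (Nat.one_le_pow _ _ (by omega))) (by exact_mod_cast hd)

variable {n N : ℕ}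

/-- the forms obtained from the polynomials `F_i` by homogenisation: they are the equations, and
`X 0 = 0` is the hyperplane at infinity, of the affine variety `F = 0` as a complement of a hyperplane
in a projective variety -/
def forms (F : Fin N → MvPolynomial (Fin n) ℂ) (d : ℕ) : Set (MvPolynomial (Fin (n + 1)) ℂ) :=
  Set.range fun i => hmg d (F i)

/-- For all `r`, all fields `L ⊇ ℂ` and all vectors `v_j` over `L` there are at most `B(d, r)` points
over `L` on `F = 0` of the form `∑ t_j v_j`, for algebraic numbers `t_j` with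
`h(1 : t_1 : … : t_r) < eps(d, r)`. -/
def UniformBound (F : Fin N → MvPolynomial (Fin n) ℂ) (d : ℕ) : Prop :=
  ∀ (r : ℕ) (L : Type) [Field L] [Algebra ℂ L] (ι : Qbar →+* L) (v : Fin r → Fin n → L),
    {x : Fin n → L | ∃ t : Fin r → Qbar,
      absLogHeight (Fin.cons 1 t : Fin (r + 1) → Qbar) < eps d r ∧
      (∀ a, x a = ∑ j, ι (t j) * v j a) ∧ ∀ i, aeval x (F i) = 0}.encard ≤ B d r

/-- For all integers `e_j` and all complex vectors `V_j` only finitely many points `∑ ζ ^ e_j V_j`,
`ζ` a root of unity, are on `F = 0`. -/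
def RootsFinite (F : Fin N → MvPolynomial (Fin n) ℂ) : Prop :=
  ∀ (r : ℕ) (e : Fin r → ℤ) (V : Fin r → Fin n → ℂ),
    {x : Fin n → ℂ | ∃ z : ℂ, (∃ q : ℕ, 0 < q ∧ z ^ q = 1) ∧
      (∀ a, x a = ∑ j, z ^ e j * V j a) ∧ ∀ i, eval x (F i) = 0}.Finite

theorem ev {s : ℕ} (u : Fin s → ℂ) (H : MvPolynomial (Fin s) ℂ) : eval u H = aeval u H := by
  rw [← MvPolynomial.coe_aeval_eq_eval]
  rfl

/-- nonconstant curves over an extension field give nonconstant curves over the complex numbers -/
theorem const_of_noGm {R : ℕ} (F : Fin N → MvPolynomial (Fin n) ℂ) (d : ℕ)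
    (hno : NoGm (forms F d) (X 0)) (L : Type) [Field L] [Algebra ℂ L] (c : Fin R → Fin n → L)
    (l : Fin (R + 1) → ℕ) (hz : ∀ i, aeval (cur (homC c) l) (hmg d (F i)) = 0) (i i' : Fin (n + 1)) :
    cur (homC c) l i * Polynomial.C (∑ j, homC c j i') =
      cur (homC c) l i' * Polynomial.C (∑ j, homC c j i) := by
  classical
  by_contra hne
  have hL : CharZero L := charZero_of_injective_algebraMap (algebraMap ℂ L).injective
  have h0 : cur (homC c) l 0 = Polynomial.X ^ l 0 := cur_homC_zero c l
  have hev : ∀ a, (cur (homC c) l a).eval 1 = ∑ j, homC c j a := by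
    intro a
    unfold cur
    rw [Polynomial.eval_finsetSum]
    refine Finset.sum_congr rfl fun j _ => ?_
    simp
  have hw : ∃ j k, Polynomial.derivative (cur (homC c) l j) * cur (homC c) l k ≠
      cur (homC c) l j * Polynomial.derivative (cur (homC c) l k) := by
    by_contra hcon
    push Not at hcon
    apply hne
    have hX : cur (homC c) l 0 ≠ 0 := by
      rw [h0]
      exact pow_ne_zero _ Polynomial.X_ne_zero
    have key : ∀ a, cur (homC c) l a = Polynomial.C (∑ j, homC c j a) * cur (homC c) l 0 := by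
      intro a
      obtain ⟨α, β, hβ, hαβ⟩ := prop_of_wronskian (a := cur (homC c) l a)
        (b := cur (homC c) l 0) hX (hcon a 0)
      have h1 := congrArg (fun p => Polynomial.eval 1 p) hαβ
      simp only [Polynomial.eval_mul, Polynomial.eval_C, hev] at h1
      have h2 : ∑ j, homC c j 0 = 1 := by
        rw [← hev, h0]
        simp
      rw [h2, mul_one] at h1
      have hC : Polynomial.C β ≠ 0 := by rwa [Ne, Polynomial.C_eq_zero]
      apply mul_left_cancel₀ hC
      rw [hαβ, ← h1, Polynomial.C_mul]
      ring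
    rw [key i, key i']
    ring
  obtain ⟨p, -, hp1, hp2, hp3, -⟩ := special (S := forms F d) (Q := X 0) (G' := 1)
    (P := cur (homC c) l) (by rintro _ ⟨i, rfl⟩; exact hz i)
    ⟨1, l 0, one_ne_zero, by rw [aeval_X, h0, Polynomial.C_1, one_mul]⟩ hw
    (by rw [map_one]; exact one_ne_zero)
  refine hno (Finset.univ.sup fun j => (p j).natDegree) p
    ⟨fun j => Finset.le_sup (f := fun j => (p j).natDegree) (Finset.mem_univ j),
      fun H hH _ => ?_, hp2, nc_of_wr hp3⟩
  have h6 : Ideal.span (forms F d) ≤ RingHom.ker (aeval (R := ℂ) p).toRingHom := by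
    rw [Ideal.span_le]
    exact fun G hG => hp1 G hG
  exact h6 hH

theorem noGm_of_roots (F : Fin N → MvPolynomial (Fin n) ℂ) (d : ℕ)
    (hF : ∀ i, (F i).totalDegree ≤ d) (h : RootsFinite F) : NoGm (forms F d) (X 0) := by
  classical
  intro M P hP
  obtain ⟨c, k, hc, hck⟩ := hP.off
  rw [aeval_X] at hck
  have hS := h (M + 1) (fun j => ((j : ℕ) : ℤ) - k) (fun j a => (P a.succ).coeff j / c)
  have ht : eval (fun j => (P j).eval 1) (1 : MvPolynomial (Fin (n + 1)) ℂ) ≠ 0 := by
    rw [map_one]
    exact one_ne_zero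
  refine curve_infinite hP ht roots_infinite ((hS.image fun x =>
    Projectivization.mk ℂ (Fin.cons 1 x : Fin (n + 1) → ℂ) (cons_ne x)).subset ?_)
  rintro p ⟨z, ⟨q, hq, hzq⟩, h0, -, rfl⟩
  have hz0 : z ≠ 0 := by
    rintro rfl
    rw [zero_pow hq.ne'] at hzq
    exact zero_ne_one hzq
  have hP0 : (P 0).eval z = c * z ^ k := by
    rw [hck]
    simp
  have hP0' : (P 0).eval z ≠ 0 := by
    rw [hP0]
    exact mul_ne_zero hc (pow_ne_zero _ hz0)
  let x : Fin n → ℂ := fun a => (P a.succ).eval z / (P 0).eval z
  have hPx : (fun j => (P j).eval z) =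
      fun j => (P 0).eval z * (Fin.cons 1 x : Fin (n + 1) → ℂ) j := by
    funext j
    refine Fin.cases ?_ (fun a => ?_) j
    · simp
    · simp only [Fin.cons_succ, x]
      field_simp
  refine ⟨x, ⟨z, ⟨q, hq, hzq⟩, fun a => ?_, fun i => ?_⟩, ?_⟩
  · show (P a.succ).eval z / (P 0).eval z = _
    rw [hP0, Polynomial.eval_eq_sum_range' (n := M + 1) (by have := hP.deg a.succ; omega),
      ← Fin.sum_univ_eq_sum_range (fun j => (P a.succ).coeff j * z ^ j), Finset.sum_div]
    refine Finset.sum_congr rfl fun j _ => ?_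
    rw [zpow_sub₀ hz0, zpow_natCast, zpow_natCast]
    field_simp
  · have h2 := hP.mem (hmg d (F i)) (Ideal.subset_span ⟨i, rfl⟩) ⟨_, hmg_homog _ _ (hF i)⟩
    have h3 := congrArg (fun p => Polynomial.eval z p) h2
    simp only [Polynomial.eval_zero] at h3
    rw [Pool.Agent.V1153.UG.eval_aeval, hPx, ev, aeval_homog (hmg_homog d (F i) (hF i)),
      hmg_one _ _ (hF i)] at h3
    rw [ev]
    exact (mul_eq_zero.1 h3).resolve_left (pow_ne_zero _ hP0')
  · show Projectivization.mk ℂ (Fin.cons 1 x : Fin (n + 1) → ℂ) (cons_ne x) =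
      Projectivization.mk ℂ _ h0
    rw [eq_comm, Projectivization.mk_eq_mk_iff']
    exact ⟨(P 0).eval z, hPx.symm⟩

/-- Let `X` be the closed subset of affine `n`-space over `ℂ` given by the polynomials `F_i` of degree
at most `d`. All maps from the punctured line to `X` are constant if and only if for every `r`, all
fields `L ⊇ ℂ` and all vectors `v_1, …, v_r` over `L` at most `B(d, r)` points of `X(L)` have the form
`∑ t_j v_j`, `t_j` algebraic numbers of arbitrary degree with `h(1 : t_1 : … : t_r) < eps(d, r)`, and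
if and only if for all integers `e_j` and complex vectors `V_j` only finitely many points
`∑ ζ ^ e_j V_j`, `ζ` a root of unity, are on `X`. This holds if `X` is Brody hyperbolic, if all
integral subvarieties of `X` with more than one point are of log general type, and if the maps from
the punctured line to `X` which send `1` to a given point are finite in number. -/
theorem result (F : Fin N → MvPolynomial (Fin n) ℂ) (d : ℕ) (hd : 1 ≤ d)
    (hF : ∀ i, (F i).totalDegree ≤ d) :
    (∀ r, 0 < eps d r) ∧
    List.TFAE [NoGm (forms F d) (X 0), UniformBound F d, RootsFinite F] ∧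
    ((∀ f, ¬ Curve (Ideal.span (forms F d)) (X 0) f) → NoGm (forms F d) (X 0)) ∧
    (AllLogGeneral (Ideal.span (forms F d)) (X 0) 1 → NoGm (forms F d) (X 0)) ∧
    (PtdFinite (forms F d) (X 0) → NoGm (forms F d) (X 0)) := by
  classical
  have hQ : (X 0 : MvPolynomial (Fin (n + 1)) ℂ).IsHomogeneous 1 := isHomogeneous_X ℂ 0
  have hom : ∀ G ∈ forms F d, ∃ a, G.IsHomogeneous a := by
    rintro _ ⟨i, rfl⟩
    exact ⟨d, hmg_homog d _ (hF i)⟩
  refine ⟨fun r => eps_pos d r hd, ?_, fun h M P hP => ?_,
    fun h M P hP => no_gm_of_all hom hQ h M P hP, noGm_of_ptdFinite hQ⟩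
  · tfae_have 1 → 2 := by
      intro hno r L _ _ ι v
      refine (Set.encard_le_encard ?_).trans (card_affOff F d hd hF 1 (fun c l hz hc => ?_) ι v)
      · rintro x ⟨t, ht, hx, hxF⟩
        exact ⟨t, ht, hx, hxF, by rw [map_one]; exact one_ne_zero⟩
      · obtain ⟨i, i', h⟩ := hc
        exact absurd (const_of_noGm F d hno L c l hz i i') h
    tfae_have 2 → 3 := by
      intro h r e V
      have halg : Algebra.IsAlgebraic ℚ Qbar := AlgebraicClosure.isAlgebraic ℚ
      let ι : Qbar →+* ℂ := (IsAlgClosed.lift : Qbar →ₐ[ℚ] ℂ).toRingHom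
      refine (Set.finite_of_encard_le_coe (h r ℂ ι V)).subset ?_
      rintro x ⟨z, ⟨q, hq, hz⟩, hx, hxF⟩
      obtain ⟨y, hy, hyq⟩ := lift_root ι hq hz
      refine ⟨fun j => y ^ e j, ?_, fun a => ?_, fun i => ?_⟩
      · rw [height_tors (Fin.cons 1 (fun j => y ^ e j) : Fin (r + 1) → Qbar) q hq fun j => by
          refine Fin.cases ?_ (fun j => ?_) j
          · simp
          · rw [Fin.cons_succ, ← zpow_natCast, ← zpow_mul, mul_comm, zpow_mul, zpow_natCast, hyq,
              one_zpow]]
        exact eps_pos d r hd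
      · rw [hx a]
        refine Finset.sum_congr rfl fun j _ => ?_
        rw [map_zpow₀, hy]
      · rw [← ev]
        exact hxF i
    tfae_have 3 → 1 := noGm_of_roots F d hF
    tfae_finish
  · obtain ⟨g, P', hg, hPP, hpr⟩ := hP.prim hQ
    refine h (fun z j => (P' j).eval (Complex.exp z))
      ⟨fun j => (P' j).differentiable.comp Complex.differentiable_exp,
        fun z h0 => ?_, fun z G hG hGh => hpr.mem _ G hG hGh,
        fun z => hpr.off _ (Complex.exp_ne_zero z), ?_⟩
    · obtain ⟨j, hj⟩ := hpr.ne (Complex.exp z)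
      exact hj (congrFun h0 j)
    · obtain ⟨s, t, j, k, hs, ht, hst⟩ := hpr.nc
      refine ⟨Complex.log s, Complex.log t, j, k, ?_⟩
      simp only [Complex.exp_log ht, Complex.exp_log hs]
      exact hst

end Pool.Agent.Results.MP_dc0411_ag.SmallMultiplierPoints
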