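import Pool.Agent.V1153.PK.VG

/-!
# Hyperbolic embedding of the strata of very general hypersurface sections

Let `V` be a closed subset of dimension at most `m` of the projective space of dimension `n`, with the
equations `G i = 0`, and let `F_1, ..., F_q` be very general forms of degrees `d_1, ..., d_q`. For a
subset `Z` of the set of the indices the stratum `X` consists of the points of `V` at which exactly the
forms `F_i` with `i ∈ Z` vanish; for `Z = ∅` it is the complement in `V` of the hypersurface sections.
We consider holomorphic maps from the unit disc to `X`.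

`DCxQ (Set.range G ∪ eqZ F Z) (∏ i ∈ univ \ Z, F i) s r e δ`: the maps of complexity at most
`(s, r, e, δ)`: in some open set the homogeneous coordinates and `1 / ∏_{i ∉ Z} F_i` of them, up to a
common factor, are polynomials of degree at most `e` in each of the functions `z`, `1 / q(z)` and the
entries of the solutions `y_1, ..., y_s` of iterated systems of `r` linear differential equations, and
`q` is a polynomial of degree at most `δ`.

`DAlgQ (Set.range G ∪ eqZ F Z) (∏ i ∈ univ \ Z, F i) μ`: the maps all of whose quotients of homogeneous
coordinates are algebraic functions which satisfy an equation of bidegree at most `(μ, μ)`.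

`fs f 0` is the Fubini-Study norm of the derivative at the centre. `KobGe c 𝒟`: the Kobayashi
pseudodistance given by the discs in `𝒟` is at least `c` times the distance of the projective space.
-/

set_option autoImplicit false

namespace Pool.Agent.Results.MP_dc0411_ag.VeryGeneralSections

open MvPolynomial Pool.Agent.V1153.UG Pool.Agent.V1153.KB
open Pool.Agent.TH182.VD (CI)

/-- Let `V` be the closed subset of the projective space of dimension `n` defined by forms `G i` of
bounded degrees, of dimension at most `m` (the transcendence degree of the homogeneous coordinate ring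
is at most `m + 1`). There is a countable subfield `k₁` of the complex numbers such that for all forms
`F_1, ..., F_q` of degrees `d_1, ..., d_q` all of whose coefficients together are algebraically
independent over `k₁` and all `Z` with `d_1 + ... + d_q + |Z| ≥ 2 m + 1`: for all `s`, `r`, `e`, `δ`,
`μ` there are `C` and `c > 0` such that the derivatives at the centre of the discs of complexity at
most `(s, r, e, δ)` and of the algebraic discs of bidegree at most `(μ, μ)` in the stratum `X` of the
points of `V` at which exactly the `F_i` with `i ∈ Z` vanish are at most `C`, and the Kobayashi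
pseudodistance given by all these discs is at least `c` times the distance of the projective space. -/
theorem result {n m b : ℕ} {κ : Type} (G : κ → MvPolynomial (Fin (n + 1)) ℂ)
    (hG : ∀ i, ∃ a ≤ b, (G i).IsHomogeneous a)
    (hdim : Algebra.trdeg ℂ (MvPolynomial (Fin (n + 1)) ℂ ⧸ Ideal.span (Set.range G)) ≤ m + 1) :
    ∃ k₁ : Subfield ℂ, Countable k₁ ∧ ∀ (q : ℕ) (d : Fin q → ℕ)
      (F : Fin q → MvPolynomial (Fin (n + 1)) ℂ), (∀ i, (F i).IsHomogeneous (d i)) →
      AlgebraicIndependent k₁ (fun x : CI n d => coeff x.2.1 (F x.1)) →
      ∀ Z : Finset (Fin q), 2 * m + 1 ≤ ∑ i, d i + Z.card → ∀ s r e δ μ : ℕ,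
        ∃ C c : ℝ, 0 < c ∧
          (∀ f, (DCxQ (Set.range G ∪ eqZ F Z) (∏ i ∈ Finset.univ \ Z, F i) s r e δ f ∨
            DAlgQ (Set.range G ∪ eqZ F Z) (∏ i ∈ Finset.univ \ Z, F i) μ f) → fs f 0 ≤ C) ∧
          KobGe c fun f =>
            DCxQ (Set.range G ∪ eqZ F Z) (∏ i ∈ Finset.univ \ Z, F i) s r e δ f ∨
            DAlgQ (Set.range G ∪ eqZ F Z) (∏ i ∈ Finset.univ \ Z, F i) μ f :=
  vg_emb G hG hdim

end Pool.Agent.Results.MP_dc0411_ag.VeryGeneralSections
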